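import Mathlib

/-!
# Square roots of unipotent elements, and self-dual families of idempotents
-/

set_option autoImplicit false

namespace Pool.Agent.V11244.SD

open Polynomial

lemma poly_sqrt (n : ℕ) : ∃ r s : ℚ[X], r.coeff 0 = 1 ∧ r * r = 1 - X + X ^ (n + 1) * s := by
  induction n with
  | zero => exact ⟨1, 1, by simp, by ring⟩
  | succ n ih =>
    obtain ⟨r, s, hr, h⟩ := ih
    have h0 : X ∣ s - C (s.coeff 0) * r + C ((s.coeff 0 / 2) ^ 2) * X ^ (n + 1) := by
      rw [X_dvd_iff]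
      simp [hr]
    obtain ⟨t, ht⟩ := h0
    refine ⟨r - C (s.coeff 0 / 2) * X ^ (n + 1), t, by simp [hr], ?_⟩
    have e1 : (C (s.coeff 0 / 2) : ℚ[X]) * 2 = C (s.coeff 0) := by
      rw [show (2 : ℚ[X]) = C 2 from rfl, ← C_mul]
      congr 1
      ring
    have e2 : (C ((s.coeff 0 / 2) ^ 2) : ℚ[X]) = C (s.coeff 0 / 2) * C (s.coeff 0 / 2) := by
      rw [pow_two, C_mul]
    calc (r - C (s.coeff 0 / 2) * X ^ (n + 1)) * (r - C (s.coeff 0 / 2) * X ^ (n + 1))
        = r * r - (C (s.coeff 0 / 2) * 2) * X ^ (n + 1) * r +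
          (C (s.coeff 0 / 2) * C (s.coeff 0 / 2)) * X ^ (n + 1) * X ^ (n + 1) := by ring
      _ = 1 - X + X ^ (n + 1) *
          (s - C (s.coeff 0) * r + C ((s.coeff 0 / 2) ^ 2) * X ^ (n + 1)) := by
        rw [h, e1, ← e2]
        ring
      _ = 1 - X + X ^ (n + 1 + 1) * t := by
        rw [ht]
        ring

/-- Square roots of unipotent elements: `v v = u`, `v w = w v = 1`, for polynomials `v`, `w` in
`1 - u`, with constant terms one. -/
lemma exists_polys (m : ℕ) : ∃ r r' : ℚ[X], r.coeff 0 = 1 ∧ r'.coeff 0 = 1 ∧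
    ∀ {A : Type*} [Ring A] [Algebra ℚ A] (n : A), n ^ m = 0 →
      aeval n r * aeval n r = 1 - n ∧ aeval n r * aeval n r' = 1 ∧ aeval n r' * aeval n r = 1 := by
  obtain ⟨r, s, hr, h⟩ := poly_sqrt m
  refine ⟨r, r * ∑ i ∈ Finset.range (m + 1), X ^ i, hr, ?_, ?_⟩
  · rw [mul_coeff_zero, hr, one_mul, finset_sum_coeff, Finset.sum_eq_single 0]
    · simp
    · intro b _ hb
      rw [coeff_X_pow, if_neg (Ne.symm hb)]
    · intro h
      simp at h
  · intro A _ _ n hn
    have hn1 : n ^ (m + 1) = 0 := by rw [pow_succ, hn, zero_mul]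
    have e1 : aeval n r * aeval n r = 1 - n := by
      rw [← map_mul, h]
      simp [hn1]
    have e2 : (r * r) * ∑ i ∈ Finset.range (m + 1), (X : ℚ[X]) ^ i =
        1 - X ^ (m + 1) + X ^ (m + 1) * (s * ∑ i ∈ Finset.range (m + 1), (X : ℚ[X]) ^ i) := by
      have e3 : (1 - (X : ℚ[X])) * ∑ i ∈ Finset.range (m + 1), (X : ℚ[X]) ^ i =
          1 - X ^ (m + 1) := mul_neg_geom_sum X (m + 1)
      rw [h, add_mul, e3]
      ring
    have e4 : aeval n r * aeval n (r * ∑ i ∈ Finset.range (m + 1), X ^ i) = 1 := by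
      rw [← map_mul, ← mul_assoc, e2]
      simp [hn1]
    refine ⟨e1, e4, ?_⟩
    rw [← map_mul, mul_comm, map_mul, e4]

/-- An additive anti-automorphism fixes all polynomials in a fixed element. -/
lemma anti_aeval {A : Type*} [Ring A] [Algebra ℚ A] (σ : A →+ A) (h1 : σ 1 = 1)
    (hm : ∀ a b, σ (a * b) = σ b * σ a) (hs : ∀ (q : ℚ) a, σ (q • a) = q • σ a) {n : A}
    (hn : σ n = n) (r : ℚ[X]) : σ (aeval n r) = aeval n r := by
  have hp : ∀ k : ℕ, σ (n ^ k) = n ^ k := by
    intro k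
    induction k with
    | zero => rw [pow_zero, h1]
    | succ k ih => rw [pow_succ, hm, ih, hn, ← pow_succ', pow_succ]
  rw [aeval_eq_sum_range, map_sum]
  exact Finset.sum_congr rfl fun k _ => by rw [hs, hp]

/-- **Self-dual families of idempotents.** -/
theorem ring_main {A : Type*} [Ring A] [Algebra ℚ A] (σ : A →+ A) (h1 : σ 1 = 1)
    (hm : ∀ a b, σ (a * b) = σ b * σ a) (hs : ∀ (q : ℚ) a, σ (q • a) = q • σ a)
    (hσ : ∀ a, σ (σ a) = a) (d : ℕ) (p p' : ℕ → A)
    (hp : ∀ i j, p i * p j = if i = j then p i else 0)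
    (hp' : ∀ i j, p' i * p' j = if i = j then p' i else 0)
    (hσp : ∀ i ≤ d, σ (p i) = p' (d - i)) (m : ℕ)
    (hn : (1 - ∑ i ∈ Finset.range (d + 1), p' i * p i) ^ m = 0) :
    ∃ r r' : ℚ[X], r.coeff 0 = 1 ∧ r'.coeff 0 = 1 ∧
      (let n := 1 - ∑ i ∈ Finset.range (d + 1), p' i * p i
      aeval n r * aeval n r' = 1 ∧ aeval n r' * aeval n r = 1 ∧
      ∀ i ≤ d, σ (aeval n r * p i * aeval n r') = aeval n r * p (d - i) * aeval n r') := by
  obtain ⟨r, r', hr, hr', h⟩ := exists_polys m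
  refine ⟨r, r', hr, hr', ?_⟩
  intro n
  obtain ⟨h2, h3, h4⟩ := h n hn
  refine ⟨h3, h4, ?_⟩
  have hσp' : ∀ i ≤ d, σ (p' i) = p (d - i) := by
    intro i hi
    have e := hσp (d - i) (by omega)
    rw [show d - (d - i) = i by omega] at e
    rw [← e, hσ]
  have hu : σ (∑ i ∈ Finset.range (d + 1), p' i * p i) = ∑ i ∈ Finset.range (d + 1), p' i * p i := by
    rw [map_sum, ← Finset.sum_range_reflect]
    refine Finset.sum_congr rfl fun i hi => ?_
    rw [Finset.mem_range] at hi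
    rw [hm, hσp _ (by omega), hσp' _ (by omega), show d - (d + 1 - 1 - i) = i by omega]
  have hσn : σ n = n := by
    simp only [n]
    rw [map_sub, h1, hu]
  have hv := anti_aeval σ h1 hm hs hσn r
  have hw := anti_aeval σ h1 hm hs hσn r'
  have hint : ∀ j ≤ d, aeval n r * aeval n r * p j = p' j * (aeval n r * aeval n r) := by
    intro j hj
    rw [h2]
    simp only [n]
    rw [sub_sub_cancel, Finset.sum_mul, Finset.mul_sum, Finset.sum_eq_single j,
      Finset.sum_eq_single j]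
    · rw [mul_assoc, hp, if_pos rfl, ← mul_assoc, hp', if_pos rfl]
    · intro b _ hb
      rw [← mul_assoc, hp', if_neg (Ne.symm hb), zero_mul]
    · intro h5
      exact absurd (Finset.mem_range.2 (by omega)) h5
    · intro b _ hb
      rw [mul_assoc, hp, if_neg hb, mul_zero]
    · intro h5
      exact absurd (Finset.mem_range.2 (by omega)) h5
  intro i hi
  rw [hm, hm, hv, hw, hσp i hi]
  have e := hint (d - i) (by omega)
  calc aeval n r' * (p' (d - i) * aeval n r)
      = aeval n r' * (p' (d - i) * (aeval n r * aeval n r)) * aeval n r' := by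
        simp only [mul_assoc, h3, mul_one]
    _ = aeval n r' * (aeval n r * aeval n r * p (d - i)) * aeval n r' := by rw [e]
    _ = aeval n r * p (d - i) * aeval n r' := by
        rw [← mul_assoc (aeval n r'), ← mul_assoc (aeval n r'), h4, one_mul]

end Pool.Agent.V11244.SD
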