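import Pool.Agent.TH133.SelfDual
import Pool.Agent.V11244.SD.Sqrt

/-!
# Self-dual Chow-Kunneth decompositions and the defect of self-duality
-/

open CategoryTheory AlgebraicGeometry

universe u v w

namespace Pool.Agent.V11244.SD

open Pool.Agent.H914 Pool.Agent.H914.VarClass Pool.Agent.H914.VarClass.Obj Pool.Agent.W492.BB
  Pool.Agent.W550.Corr Pool.Agent.TH133

set_option linter.unusedSectionVars false

variable {k : Type u} [Field k] {𝒱 : VarClass k}

/-- The defect of self-duality `Δ_X - ∑ σ^*(π_(2d-i)) ∘ π_i`, `d = dim X`. -/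
noncomputable def defect (C : TheoryData.{u, v, 0} 𝒱 ℚ) {X : 𝒱.Obj} (π : ℕ → C.A (X.prod X)) :
    C.A (X.prod X) :=
  dg C X - ∑ i ∈ Finset.range (2 * X.dim + 1), C.comp (π i) (tp C (π (2 * X.dim - i)))

/-- The `m`-th power of `γ` is zero. -/
def PowZero (C : TheoryData.{u, v, 0} 𝒱 ℚ) {X : 𝒱.Obj} (γ : C.A (X.prod X)) (m : ℕ) : Prop :=
  compList C X (List.replicate m γ) = 0

/-- The Chow-Kunneth decompositions `π` and `q` are conjugate by a unit `s` (with inverse `t`) which
acts as the identity on the cohomology. -/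
def Conjugate {C : TheoryData.{u, v, 0} 𝒱 ℚ} {K : Type w} [Field K]
    (H : WeilTheoryData.{u, v, w} C K) {X : 𝒱.Obj} (π q : ℕ → C.A (X.prod X)) : Prop :=
  ∃ s t : C.A (X.prod X), C.Deg X.dim s ∧ C.Deg X.dim t ∧ C.comp s t = dg C X ∧
    C.comp t s = dg C X ∧ (∀ a : H.A X, H.act (H.cl s) a = a) ∧
    ∀ i, q i = C.comp (C.comp t (π i)) s

variable {C : TheoryData.{u, v, 0} 𝒱 ℚ} [hC : IsChowProj C] {K : Type w} [Field K]
  {H : WeilTheoryData.{u, v, w} C K} [hH : IsWeilProj H] {X : 𝒱.Obj}

/-- a correspondence as an element of the ring `Cor` -/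
def cor (γ : C.A (X.prod X)) : Cor C X := γ

include hC

lemma compList_replicate (γ : C.A (X.prod X)) (m : ℕ) :
    cor (compList C X (List.replicate m γ)) = cor γ ^ m := by
  induction m with
  | zero => rfl
  | succ m ih =>
    rw [pow_succ, ← ih]
    rfl

include hH

lemma defect_eq (π : ℕ → C.A (X.prod X)) : cor (defect C π) =
    1 - ∑ i ∈ Finset.range (2 * X.dim + 1), cor (dualCK C π i) * cor (π i) := by
  have h1 : ∀ i ∈ Finset.range (2 * X.dim + 1), C.comp (π i) (tp C (π (2 * X.dim - i))) =
      C.comp (π i) (dualCK C π i) := by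
    intro i hi
    rw [Finset.mem_range] at hi
    unfold dualCK
    rw [if_pos (by omega)]
  unfold defect
  rw [Finset.sum_congr rfl h1]
  rfl

/-- The defect acts as zero on the cohomology. -/
lemma act_defect {π : ℕ → C.A (X.prod X)} (h : IsCK H X π) :
    actH C X H (cor (defect C π)) = 0 := by
  rw [defect_eq (H := H)]
  apply ext_gr H
  intro m a ha
  by_cases ha0 : a = 0
  · rw [ha0, map_zero, map_zero]
  have hm0 : 0 ≤ m := nonneg_of_mem H ha ha0
  have hm1 : m ≤ 2 * X.dim := by
    by_contra hc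
    have h2 := gr_top H (X := X) (i := m) (by omega)
    rw [h2] at ha
    exact ha0 ((Submodule.mem_bot _).1 ha)
  obtain ⟨j, rfl⟩ := Int.eq_ofNat_of_zero_le hm0
  have h3 : ∀ i, actH C X H (cor (dualCK C π i) * cor (π i)) a =
      if i = j then a else 0 := by
    intro i
    rw [map_mul, Module.End.mul_apply]
    have e1 : actH C X H (cor (π i)) a = if ((j : ℕ) : ℤ) = i then a else 0 :=
      h.actH_eq i j ha
    rw [e1]
    by_cases hi : i = j
    · subst hi
      rw [if_pos rfl, if_pos rfl]
      exact h.dual.act_self i a ha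
    · rw [if_neg (by exact_mod_cast (Ne.symm hi)), if_neg hi, map_zero]
  rw [map_sub, map_one, map_sum, LinearMap.sub_apply, LinearMap.sum_apply,
    Finset.sum_congr rfl fun i _ => h3 i, Finset.sum_ite_eq' , if_pos (Finset.mem_range.2 (by omega)),
    LinearMap.zero_apply]
  exact sub_self a

lemma defect_mem {π : ℕ → C.A (X.prod X)} (h : IsCK H X π) :
    cor (defect C π) ∈ cor0 C X := by
  rw [defect_eq (H := H)]
  refine (cor0 C X).sub_mem (cor0 C X).one_mem ((cor0 C X).sum_mem fun i _ => ?_)
  exact (cor0 C X).mul_mem (h.dual.deg i) (h.deg i)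

open Polynomial in
lemma aeval_mem {n : Cor C X} (hn : n ∈ cor0 C X) (r : ℚ[X]) : aeval n r ∈ cor0 C X := by
  rw [aeval_eq_sum_range]
  exact (cor0 C X).sum_mem fun k _ => (cor0 C X).smul_mem ((cor0 C X).pow_mem hn k) _

open Polynomial in
lemma act_aeval {n : Cor C X} (hn : actH C X H n = 0) {r : ℚ[X]} (hr : r.coeff 0 = 1) :
    actH C X H (aeval n r) = 1 := by
  have h1 : aeval n r = aeval n (divX r) * n + 1 := by
    conv_lhs => rw [← divX_mul_X_add r, hr]
    simp
  rw [h1, map_add, map_mul, hn, mul_zero, zero_add, map_one]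

/-- **Main theorem.** -/
theorem main {π : ℕ → C.A (X.prod X)} (h : IsCK H X π) {m : ℕ} (hm : PowZero C (defect C π) m) :
    ∃ q : ℕ → C.A (X.prod X), IsCK H X q ∧ IsSelfDual C q ∧ Conjugate H π q := by
  have hpow : cor (defect C π) ^ m = 0 := by
    rw [← compList_replicate]
    exact congrArg cor hm
  have hp : ∀ (ρ : ℕ → C.A (X.prod X)), IsCK H X ρ → ∀ i j,
      cor (ρ i) * cor (ρ j) = if i = j then cor (ρ i) else 0 := by
    intro ρ hρ i j
    exact IsCK.mul_eq (P := fun i => cor (ρ i)) hρ i j
  have hσp : ∀ i ≤ 2 * X.dim, tpR C X (cor (π i)) = cor (dualCK C π (2 * X.dim - i)) := by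
    intro i hi
    unfold dualCK
    rw [if_pos (by omega), show 2 * X.dim - (2 * X.dim - i) = i by omega]
    rfl
  obtain ⟨r, r', hr, hr', hvw, hwv, hq⟩ := ring_main (tpR C X) tpR_one tpR_mul tpR_smul tpR_tpR
    (2 * X.dim) (fun i => cor (π i)) (fun i => cor (dualCK C π i)) (hp π h)
    (hp _ h.dual) hσp m (by rw [← defect_eq (H := H)]; exact hpow)
  have hq' := hq
  simp only [← defect_eq (H := H)] at hvw hwv hq
  have hv1 : actH C X H (Polynomial.aeval (cor (defect C π)) r) = 1 := act_aeval (act_defect h) hr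
  have hw1 : actH C X H (Polynomial.aeval (cor (defect C π)) r') = 1 :=
    act_aeval (act_defect h) hr'
  have hvm := aeval_mem (H := H) (defect_mem h) r
  have hwm := aeval_mem (H := H) (defect_mem h) r'
  generalize Polynomial.aeval (cor (defect C π)) r = v at *
  generalize Polynomial.aeval (cor (defect C π)) r' = w at *
  have hact : ∀ i, actH C X H (v * cor (π i) * w) = actH C X H (cor (π i)) := by
    intro i
    rw [map_mul, map_mul, hv1, hw1, one_mul, mul_one]
  have hqq : ∀ i j, (v * cor (π i) * w) * (v * cor (π j) * w) =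
      if i = j then v * cor (π i) * w else 0 := by
    intro i j
    have e1 : (v * cor (π i) * w) * (v * cor (π j) * w) =
        v * (cor (π i) * cor (π j)) * w := by
      calc (v * cor (π i) * w) * (v * cor (π j) * w)
          = v * cor (π i) * (w * v) * cor (π j) * w := by simp only [mul_assoc]
        _ = _ := by rw [hwv, mul_one]; simp only [mul_assoc]
    rw [e1, hp π h]
    split_ifs
    · rfl
    · rw [mul_zero, zero_mul]
  refine ⟨fun i => (v * cor (π i) * w), ⟨?_, ?_, ?_, ?_, ?_, ?_, ?_⟩, ?_, ?_⟩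
  · intro i
    exact (cor0 C X).mul_mem ((cor0 C X).mul_mem hvm (h.deg i)) hwm
  · intro i hi
    have e : cor (π i) = 0 := h.out i hi
    show v * cor (π i) * w = 0
    rw [e, mul_zero, zero_mul]
  · intro i
    have := hqq i i
    rw [if_pos rfl] at this
    exact this
  · intro i j hij
    have := hqq j i
    rw [if_neg (Ne.symm hij)] at this
    exact this
  · have e : ∑ i ∈ Finset.range (2 * X.dim + 1), cor (π i) = 1 := h.sum
    have e2 : ∑ i ∈ Finset.range (2 * X.dim + 1), (v * cor (π i) * w) = 1 := by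
      rw [← Finset.sum_mul, ← Finset.mul_sum, e, mul_one, hvw]
    exact e2
  · intro i a ha
    have e := LinearMap.congr_fun (hact i) a
    rw [actH_apply, actH_apply] at e
    exact e.trans (h.act_self i a ha)
  · intro i n a hn ha
    have e := LinearMap.congr_fun (hact i) a
    rw [actH_apply, actH_apply] at e
    exact e.trans (h.act_ne i n a hn ha)
  · intro i hi
    exact hq i hi
  · exact ⟨v, w, hvm, hwm, hwv, hvw, fun a => LinearMap.congr_fun hv1 a, fun i => by
      show v * cor (π i) * w = v * (cor (π i) * w)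
      rw [mul_assoc]⟩

/-- The defect of a self-dual decomposition is zero. -/
lemma defect_selfDual {π : ℕ → C.A (X.prod X)} (h : IsCK H X π) (hs : IsSelfDual C π) :
    defect C π = 0 := by
  unfold defect
  rw [← h.sum, sub_eq_zero]
  refine Finset.sum_congr rfl fun i hi => ?_
  rw [Finset.mem_range] at hi
  rw [hs (2 * X.dim - i) (by omega), show 2 * X.dim - (2 * X.dim - i) = i by omega, h.idem]

end Pool.Agent.V11244.SD
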